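import Mathlib

set_option autoImplicit false

namespace Pool.Agent.Results.MP_154e02_al.NoRoot

open Matrix Complex

noncomputable def adj {n : ℕ} (H X : Matrix (Fin n) (Fin n) ℂ) : Matrix (Fin n) (Fin n) ℂ :=
  H⁻¹ * Xᴴ * H

theorem result : ∃ (n : ℕ) (H X Y : Matrix (Fin n) (Fin n) ℂ), 1 ≤ n ∧ IsUnit H ∧ Hᴴ = H ∧
    Y ^ 2 = adj H X * X ∧ (∀ v, Y *ᵥ v = 0 ↔ X *ᵥ v = 0) ∧
    ¬ ∃ A : Matrix (Fin n) (Fin n) ℂ, adj H A = A ∧ A ^ 2 = adj H X * X ∧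
      ∀ v, A *ᵥ v = 0 ↔ X *ᵥ v = 0 := by
  have h1 : (!![1, 0; 0, -1] : Matrix (Fin 2) (Fin 2) ℂ) * !![1, 0; 0, -1] = 1 := by
    ext i j; fin_cases i <;> fin_cases j <;> simp
  have h2 := inv_eq_left_inv h1
  have h3 : adj !![1, 0; 0, -1] !![0, 0; 1, 0] * !![0, 0; 1, 0] = !![-1, 0; 0, 0] := by
    have h4 : (!![0, 0; 1, 0] : Matrix (Fin 2) (Fin 2) ℂ)ᴴ = !![0, 1; 0, 0] := by
      ext i j; fin_cases i <;> fin_cases j <;> simp
    rw [adj, h2, h4]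
    ext i j; fin_cases i <;> fin_cases j <;> simp
  refine ⟨2, !![1, 0; 0, -1], !![0, 0; 1, 0], !![I, 0; 0, 0], by norm_num,
    IsUnit.of_mul_eq_one _ h1, ?_, ?_, fun v => ?_, ?_⟩
  · ext i j; fin_cases i <;> fin_cases j <;> simp
  · rw [h3, sq]
    ext i j; fin_cases i <;> fin_cases j <;> simp
  · simp [funext_iff, Fin.forall_fin_two, mulVec, dotProduct]
  · rintro ⟨A, a1, a2, a3⟩
    have e1 := congrFun ((a3 ![0, 1]).mpr (by simp [funext_iff, Fin.forall_fin_two])) 0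
    have e2 := congrFun (congrFun a1 0) 0
    have e3 := congrFun (congrFun (a2.trans h3) 0) 0
    rw [adj, h2] at e2
    simp [mulVec, dotProduct] at e1
    simp [Matrix.mul_apply, Fin.sum_univ_two, vecMul, dotProduct] at e2
    simp [sq, Matrix.mul_apply, Fin.sum_univ_two, e1] at e3
    have e4 := congrArg re e3
    have e5 := conj_eq_iff_im.mp e2
    simp [e5] at e4
    nlinarith

end Pool.Agent.Results.MP_154e02_al.NoRoot
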